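import Pool.Agent.H238.PH.Spec

/-!
Project PH (helper238), MP_815c6c_an, task M (helper155): a map which is homogeneous of degree
`γ > 1` and `C¹` off the origin is `C¹`.
-/

set_option autoImplicit false

namespace Pool.Agent.H155.PH

open Set Filter Topology
open Pool.Agent.H238.PH (RE Mat Hom S_M)

section
variable {E F : Type*} [NormedAddCommGroup E] [NormedSpace ℝ E] [ProperSpace E]
  [NormedAddCommGroup F] [NormedSpace ℝ F]

/-- A homogeneous nonnegative function which is bounded on the unit sphere. -/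
lemma hom_bound (δ M : ℝ) (u : E → ℝ) (hu : ∀ (t : ℝ) (x : E), 0 < t → x ≠ 0 →
    u (t • x) = t ^ δ * u x) (hM : ∀ x ∈ Metric.sphere (0 : E) 1, u x ≤ M) (x : E) (hx : x ≠ 0) :
    u x ≤ M * ‖x‖ ^ δ := by
  have h0 : 0 < ‖x‖ := norm_pos_iff.2 hx
  have h1 : ‖x‖⁻¹ • x ≠ 0 := smul_ne_zero (inv_ne_zero h0.ne') hx
  have h2 : ‖x‖⁻¹ • x ∈ Metric.sphere (0 : E) 1 := by
    rw [mem_sphere_zero_iff_norm, norm_smul, norm_inv, norm_norm, inv_mul_cancel₀ h0.ne']
  have h3 : x = ‖x‖ • (‖x‖⁻¹ • x) := by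
    rw [smul_smul, mul_inv_cancel₀ h0.ne', one_smul]
  have h4 : u x = ‖x‖ ^ δ * u (‖x‖⁻¹ • x) := by
    rw [← hu _ _ h0 h1, ← h3]
  rw [h4, mul_comm M]
  exact mul_le_mul_of_nonneg_left (hM _ h2) (Real.rpow_nonneg h0.le _)

lemma hom_zero {γ : ℝ} (hγ : 1 < γ) {V : E → F} (hV : Hom γ V) : V 0 = 0 := by
  have h1 := hV 2 0 (by norm_num)
  rw [smul_zero] at h1
  have h2 : (1 : ℝ) < 2 ^ γ := Real.one_lt_rpow (by norm_num) (by linarith)
  have h3 : ((2 : ℝ) ^ γ - 1) • V 0 = 0 := by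
    rw [sub_smul, one_smul, ← h1, sub_self]
  rcases smul_eq_zero.1 h3 with h4 | h4
  · linarith
  · exact h4

lemma tendsto_rpow_norm (C δ : ℝ) (hδ : 0 < δ) :
    Tendsto (fun x : E => C * ‖x‖ ^ δ) (𝓝 0) (𝓝 0) := by
  have h1 : Continuous (fun x : E => C * ‖x‖ ^ δ) :=
    continuous_const.mul (continuous_norm.rpow_const fun _ => Or.inr hδ.le)
  have h2 := h1.tendsto 0
  simp only [norm_zero, Real.zero_rpow hδ.ne', mul_zero] at h2
  exact h2

lemma fderiv_hom {γ : ℝ} {V : E → F} (hV : Hom γ V)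
    (hC : ∀ x, x ≠ 0 → ContDiffAt ℝ 1 V x) (t : ℝ) (x : E) (ht : 0 < t) (hx : x ≠ 0) :
    fderiv ℝ V (t • x) = t ^ (γ - 1) • fderiv ℝ V x := by
  have h1 : HasFDerivAt V (fderiv ℝ V (t • x)) (t • x) :=
    ((hC _ (smul_ne_zero ht.ne' hx)).differentiableAt (by norm_num)).hasFDerivAt
  have h2 : HasFDerivAt V (fderiv ℝ V x) x :=
    ((hC _ hx).differentiableAt (by norm_num)).hasFDerivAt
  have h3 : HasFDerivAt (fun y : E => t • y) (t • ContinuousLinearMap.id ℝ E) x :=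
    (hasFDerivAt_id x).const_smul t
  have h4 : HasFDerivAt (fun y : E => V (t • y))
      ((fderiv ℝ V (t • x)).comp (t • ContinuousLinearMap.id ℝ E)) x := h1.comp x h3
  have h5 : HasFDerivAt (fun y : E => V (t • y)) (t ^ γ • fderiv ℝ V x) x := by
    have h6 : (fun y : E => V (t • y)) = fun y => t ^ γ • V y := funext fun y => hV t y ht
    rw [h6]
    exact h2.const_smul _
  have h7 := h4.unique h5
  rw [ContinuousLinearMap.comp_smul, ContinuousLinearMap.comp_id] at h7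
  have h8 : fderiv ℝ V (t • x) = t⁻¹ • (t • fderiv ℝ V (t • x)) := by
    rw [smul_smul, inv_mul_cancel₀ ht.ne', one_smul]
  rw [h8, h7, smul_smul]
  congr 1
  rw [Real.rpow_sub ht, Real.rpow_one, div_eq_inv_mul]

/-- Homogeneous of degree `γ > 1` and `C¹` off the origin implies `C¹`. -/
theorem contDiff_of_hom {γ : ℝ} (hγ : 1 < γ) {V : E → F} (hV : Hom γ V)
    (hC : ∀ x, x ≠ 0 → ContDiffAt ℝ 1 V x) :
    ContDiff ℝ 1 V ∧ ∃ L : ℝ, 0 ≤ L ∧ ∀ x, ‖fderiv ℝ V x‖ ≤ L * ‖x‖ ^ (γ - 1) := by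
  have hγ1 : 0 < γ - 1 := by linarith
  have hS : ∀ x ∈ Metric.sphere (0 : E) 1, x ≠ 0 := fun x hx h => by
    rw [mem_sphere_zero_iff_norm, h, norm_zero] at hx
    exact zero_ne_one hx
  have hcd : ∀ x, x ≠ 0 → ContinuousAt (fderiv ℝ V) x := fun x hx =>
    ((hC x hx).fderiv_right (m := 0) (by norm_num)).continuousAt
  obtain ⟨M, hM⟩ := (isCompact_sphere (0 : E) 1).exists_bound_of_continuousOn (f := V)
    (fun x hx => (hC x (hS x hx)).continuousAt.continuousWithinAt)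
  obtain ⟨L, hL⟩ := (isCompact_sphere (0 : E) 1).exists_bound_of_continuousOn (f := fderiv ℝ V)
    (fun x hx => (hcd x (hS x hx)).continuousWithinAt)
  have hV0 := hom_zero hγ hV
  have hVb : ∀ x : E, ‖V x‖ ≤ M * ‖x‖ ^ (γ - 1) * ‖x‖ := by
    intro x
    rcases eq_or_ne x 0 with h | h
    · rw [h, hV0, norm_zero, norm_zero, mul_zero]
    · have h0 : 0 < ‖x‖ := norm_pos_iff.2 h
      have h1 := hom_bound γ M (fun x => ‖V x‖) (fun t x ht _ => by
        show ‖V (t • x)‖ = t ^ γ * ‖V x‖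
        rw [hV t x ht, norm_smul, Real.norm_of_nonneg (Real.rpow_nonneg ht.le _)]) hM x h
      have h2 : ‖x‖ ^ γ = ‖x‖ ^ (γ - 1) * ‖x‖ := by
        rw [← Real.rpow_add_one h0.ne', sub_add_cancel]
      rw [h2, ← mul_assoc] at h1
      exact h1
  have hd0 : HasFDerivAt V (0 : E →L[ℝ] F) 0 := by
    rw [hasFDerivAt_iff_isLittleO, Asymptotics.isLittleO_iff]
    intro c hc
    filter_upwards [(tendsto_rpow_norm (E := E) M (γ - 1) hγ1).eventually_lt_const hc] with x hx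
    rw [hV0]
    simp only [sub_zero, zero_apply]
    exact (hVb x).trans (mul_le_mul_of_nonneg_right hx.le (norm_nonneg _))
  have hf0 : fderiv ℝ V 0 = 0 := hd0.fderiv
  have hLb : ∀ x : E, ‖fderiv ℝ V x‖ ≤ max L 0 * ‖x‖ ^ (γ - 1) := by
    intro x
    rcases eq_or_ne x 0 with h | h
    · rw [h, hf0, norm_zero, norm_zero, Real.zero_rpow hγ1.ne', mul_zero]
    · refine hom_bound (γ - 1) (max L 0) (fun x => ‖fderiv ℝ V x‖) (fun t x ht hx => ?_)
        (fun x hx => (hL x hx).trans (le_max_left _ _)) x h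
      show ‖fderiv ℝ V (t • x)‖ = t ^ (γ - 1) * ‖fderiv ℝ V x‖
      rw [fderiv_hom hV hC t x ht hx, norm_smul, Real.norm_of_nonneg (Real.rpow_nonneg ht.le _)]
  refine ⟨contDiff_one_iff_fderiv.2 ⟨fun x => ?_, ?_⟩, max L 0, le_max_right _ _, hLb⟩
  · rcases eq_or_ne x 0 with h | h
    · rw [h]
      exact hd0.differentiableAt
    · exact (hC x h).differentiableAt (by norm_num)
  · rw [continuous_iff_continuousAt]
    intro x
    rcases eq_or_ne x 0 with h | h
    · rw [h, ContinuousAt, hf0]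
      exact squeeze_zero_norm hLb (tendsto_rpow_norm (E := E) (max L 0) (γ - 1) hγ1)
    · exact hcd x h

end

theorem t_M : S_M := fun _ _ _ hγ hV hC => contDiff_of_hom hγ hV hC

end Pool.Agent.H155.PH
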